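import Pool.Agent.H71.AG.Stage

/-!
# A grammar for which quadratically many rounds are needed

`A → AB | AD | ε`, `B → ε | l | a | g`, `D → l | H`, `H → h & X`, `X → hX | K`, `K → ε & gY`,
`Y → ε | lY | aY` (`H`, `K` universal) and the words `h^m g a^m l^m`.
-/

set_option autoImplicit false

namespace Pool.Agent.H71.AG

open Pool.Agent.H43.AG

inductive Vr : Type
  | A | B | D | H | X | K | Y
  deriving DecidableEq, Fintype

inductive Lt : Type
  | l | a | g | h
  deriving DecidableEq, Fintype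

/-- the variable `A` as a symbol -/
abbrev v (x : Vr) : Vr ⊕ Lt := Sum.inl x

/-- the letter `c` as a symbol -/
abbrev c (x : Lt) : Vr ⊕ Lt := Sum.inr x

def prods : List (Form Vr Lt × Form Vr Lt) :=
  [([v .A], [v .A, v .B]), ([v .A], [v .A, v .D]), ([v .A], []),
   ([v .B], []), ([v .B], [c .l]), ([v .B], [c .a]), ([v .B], [c .g]),
   ([v .D], [c .l]), ([v .D], [v .H]),
   ([v .H], [c .h]), ([v .H], [v .X]),
   ([v .X], [c .h, v .X]), ([v .X], [v .K]),
   ([v .K], []), ([v .K], [c .g, v .Y]),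
   ([v .Y], []), ([v .Y], [c .l, v .Y]), ([v .Y], [c .a, v .Y])]

/-- the grammar -/
def G0 : Grammar Vr Lt where
  S := Vr.A
  U := {Vr.H, Vr.K}
  P := {p | p ∈ prods}
  fin := List.finite_toSet prods

theorem cf0 : ContextFree G0 := by
  intro p hp
  have hp' : p ∈ prods := hp
  simp only [prods, List.mem_cons, List.not_mem_nil, or_false] at hp'
  rcases hp' with rfl | rfl | rfl | rfl | rfl | rfl | rfl | rfl | rfl | rfl | rfl | rfl | rfl |
    rfl | rfl | rfl | rfl | rfl <;> exact ⟨_, rfl⟩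

theorem memP (x : Vr) (r : Form Vr Lt) : ([Sum.inl x], r) ∈ G0.P ↔ ([v x], r) ∈ prods := Iff.rfl

section general

variable {V T : Type} (G : Grammar V T) (hG : ContextFree G)

theorem ch_ex {A : V} (hA : A ∉ G.U) (S : Set (Form V T)) :
    S ∈ Ch G A ↔ ∃ r, ([Sum.inl A], r) ∈ G.P ∧ S = {r} := by
  constructor
  · rintro (⟨h, _⟩ | ⟨_, h⟩)
    · exact absurd h hA
    · exact h
  · intro h
    exact Or.inr ⟨hA, h⟩

theorem ch_un {A : V} (hA : A ∈ G.U) (S : Set (Form V T)) :
    S ∈ Ch G A ↔ (∃ r, ([Sum.inl A], r) ∈ G.P) ∧ S = {r | ([Sum.inl A], r) ∈ G.P} := by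
  constructor
  · rintro (⟨_, h⟩ | ⟨h, _⟩)
    · exact h
    · exact absurd hA h
  · intro h
    exact Or.inl ⟨hA, h⟩

include hG in
theorem sem_ex {A : V} (hA : A ∉ G.U) (R : Set (List T)) (u : List T) :
    u ∈ Sem G A R ↔ ∃ r, ([Sum.inl A], r) ∈ G.P ∧ u ∈ ext (Sem G) r R := by
  rw [sem_eq G hG]
  constructor
  · rintro ⟨S, hS, h⟩
    obtain ⟨r, hr, rfl⟩ := (ch_ex G hA S).1 hS
    exact ⟨r, hr, h r rfl⟩
  · rintro ⟨r, hr, h⟩
    refine ⟨{r}, (ch_ex G hA _).2 ⟨r, hr, rfl⟩, ?_⟩
    rintro s rfl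
    exact h

theorem stage_ex {A : V} (hA : A ∉ G.U) (t : ℕ) (R : Set (List T)) (u : List T)
    (h : u ∈ Stage G (t + 1) A R) :
    ∃ r, ([Sum.inl A], r) ∈ G.P ∧ u ∈ ext (Stage G t) r R := by
  obtain ⟨S, hS, h⟩ := h
  obtain ⟨r, hr, rfl⟩ := (ch_ex G hA S).1 hS
  exact ⟨r, hr, h r rfl⟩

include hG in
theorem sem_un {A : V} (hA : A ∈ G.U) (R : Set (List T)) (u : List T) :
    u ∈ Sem G A R ↔ (∃ r, ([Sum.inl A], r) ∈ G.P) ∧
      ∀ r, ([Sum.inl A], r) ∈ G.P → u ∈ ext (Sem G) r R := by
  rw [sem_eq G hG]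
  constructor
  · rintro ⟨S, hS, h⟩
    obtain ⟨h1, rfl⟩ := (ch_un G hA S).1 hS
    exact ⟨h1, fun r hr => h r hr⟩
  · rintro ⟨h1, h2⟩
    exact ⟨_, (ch_un G hA _).2 ⟨h1, rfl⟩, fun r hr => h2 r hr⟩

end general

theorem nA : Vr.A ∉ G0.U := by simp [G0]
theorem nB : Vr.B ∉ G0.U := by simp [G0]
theorem nD : Vr.D ∉ G0.U := by simp [G0]
theorem nX : Vr.X ∉ G0.U := by simp [G0]
theorem nY : Vr.Y ∉ G0.U := by simp [G0]
theorem yH : Vr.H ∈ G0.U := by simp [G0]
theorem yK : Vr.K ∈ G0.U := by simp [G0]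

/-! ### upper bounds for the maps -/

theorem fB (R : Set (List Lt)) (u : List Lt) (h : u ∈ Sem G0 .B R) :
    u ∈ R ∨ ∃ y ∈ R, ∃ x : Lt, x ≠ .h ∧ u = x :: y := by
  obtain ⟨r, hr, h⟩ := (sem_ex G0 cf0 nB R u).1 h
  rw [memP] at hr
  simp only [prods, List.mem_cons, List.not_mem_nil, or_false, Prod.mk.injEq, List.cons.injEq,
    Sum.inl.injEq, reduceCtorEq, and_true, false_and, false_or, true_and, or_false] at hr
  rcases hr with rfl | rfl | rfl | rfl
  · exact Or.inl h
  · obtain ⟨y, hy, rfl⟩ := h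
    exact Or.inr ⟨y, hy, .l, by simp, rfl⟩
  · obtain ⟨y, hy, rfl⟩ := h
    exact Or.inr ⟨y, hy, .a, by simp, rfl⟩
  · obtain ⟨y, hy, rfl⟩ := h
    exact Or.inr ⟨y, hy, .g, by simp, rfl⟩

theorem fK (R : Set (List Lt)) (u : List Lt) (h : u ∈ Sem G0 .K R) :
    u ∈ R ∧ ∃ z, u = .g :: z := by
  obtain ⟨_, h⟩ := (sem_un G0 cf0 yK R u).1 h
  have h1 := h [] (by rw [memP]; simp [prods])
  have h2 := h [c .g, v .Y] (by rw [memP]; simp [prods])
  obtain ⟨z, _, rfl⟩ := h2
  exact ⟨h1, z, rfl⟩

theorem fX (R : Set (List Lt)) : ∀ (n : ℕ) (u : List Lt), u.length = n → u ∈ Sem G0 .X R →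
    ∃ z, .g :: z ∈ R ∧ (.g :: z) <:+ u := by
  intro n
  induction n using Nat.strong_induction_on with
  | _ n ih =>
    intro u hu h
    obtain ⟨r, hr, h⟩ := (sem_ex G0 cf0 nX R u).1 h
    rw [memP] at hr
    simp only [prods, List.mem_cons, List.not_mem_nil, or_false, Prod.mk.injEq, List.cons.injEq,
      Sum.inl.injEq, reduceCtorEq, and_true, false_and, false_or, true_and, or_false] at hr
    rcases hr with rfl | rfl
    · obtain ⟨y, hy, rfl⟩ := h
      obtain ⟨z, hz, hs⟩ := ih y.length (by rw [← hu]; simp) y rfl hy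
      exact ⟨z, hz, hs.trans (List.suffix_cons _ _)⟩
    · obtain ⟨h1, z, rfl⟩ := fK R u h
      exact ⟨z, h1, List.suffix_refl _⟩

theorem fD (R : Set (List Lt)) (u : List Lt) (h : u ∈ Sem G0 .D R) :
    (∃ y, u = .l :: y) ∨ ∃ y ∈ R, u = .h :: y ∧ ∃ z, .g :: z ∈ R ∧ (.g :: z) <:+ u := by
  obtain ⟨r, hr, h⟩ := (sem_ex G0 cf0 nD R u).1 h
  rw [memP] at hr
  simp only [prods, List.mem_cons, List.not_mem_nil, or_false, Prod.mk.injEq, List.cons.injEq,
    Sum.inl.injEq, reduceCtorEq, and_true, false_and, false_or, true_and, or_false] at hr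
  rcases hr with rfl | rfl
  · obtain ⟨y, _, rfl⟩ := h
    exact Or.inl ⟨y, rfl⟩
  · obtain ⟨_, h⟩ := (sem_un G0 cf0 yH R u).1 h
    have h1 := h [c .h] (by rw [memP]; simp [prods])
    have h2 := h [v .X] (by rw [memP]; simp [prods])
    obtain ⟨y, hy, rfl⟩ := h1
    obtain ⟨z, hz, hs⟩ := fX R _ _ rfl h2
    exact Or.inr ⟨y, hy, rfl, z, hz, hs⟩

/-! ### words of `B` and `D` -/

def vr : Bool → Vr
  | true => .D
  | false => .B

def wd (γ : List Bool) : Form Vr Lt := γ.map (fun b => v (vr b))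

theorem stageA : ∀ (t : ℕ) (u : List Lt) (R : Set (List Lt)), u ∈ Stage G0 t .A R →
    ∃ γ : List Bool, γ.length < t ∧ u ∈ ext (Sem G0) (wd γ) R
  | 0, u, R, h => by simp [Stage] at h
  | t + 1, u, R, h => by
    obtain ⟨r, hr, h⟩ := stage_ex G0 nA t R u h
    rw [memP] at hr
    simp only [prods, List.mem_cons, List.not_mem_nil, or_false, Prod.mk.injEq, List.cons.injEq,
      Sum.inl.injEq, reduceCtorEq, and_true, false_and, false_or, true_and, or_false] at hr
    have key : ∀ b : Bool, u ∈ Stage G0 t .A (Stage G0 t (vr b) R) →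
        ∃ γ : List Bool, γ.length < t + 1 ∧ u ∈ ext (Sem G0) (wd γ) R := by
      intro b hb
      obtain ⟨γ, hγ, hu⟩ := stageA t u _ hb
      refine ⟨γ ++ [b], by rw [List.length_append]; simp; omega, ?_⟩
      have e : wd (γ ++ [b]) = wd γ ++ [v (vr b)] := by simp [wd]
      rw [e, ext_append]
      exact ext_le (Sem G0) (Sem G0) u (fun x _ B Q Q' hQ hx => sem_loc G0 x B Q Q' hQ hx) _ _ _ u
        (List.suffix_refl u) (fun x _ hx => stage_sem G0 cf0 t x _ R hx) hu
    rcases hr with rfl | rfl | rfl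
    · exact key false h
    · exact key true h
    · exact ⟨[], by simp, h⟩

/-! ### the suffixes of the words -/

/-- the word `h^m g a^m l^m` -/
def wm (m : ℕ) : List Lt :=
  List.replicate m .h ++ (.g :: (List.replicate m .a ++ (List.replicate m .l ++ [])))

theorem wm_length (m : ℕ) : (wm m).length = 2 * m + 1 + m := by
  simp [wm]
  omega

theorem suf_rep (k : ℕ) (x : Lt) (w u : List Lt) (h : u <:+ List.replicate k x ++ w) :
    u <:+ w ∨ ∃ i, 1 ≤ i ∧ i ≤ k ∧ u = List.replicate i x ++ w := by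
  induction k with
  | zero => exact Or.inl (by simpa using h)
  | succ k ih =>
    rw [List.replicate_succ, List.cons_append, List.suffix_cons_iff] at h
    rcases h with rfl | h
    · exact Or.inr ⟨k + 1, by omega, le_rfl, by rw [List.replicate_succ, List.cons_append]⟩
    · rcases ih h with h | ⟨i, h1, h2, h3⟩
      · exact Or.inl h
      · exact Or.inr ⟨i, h1, by omega, h3⟩

theorem letter (m : ℕ) (x : Lt) (y : List Lt) (h : (x :: y) <:+ wm m) :
    (x = .l ∧ y.length + 1 ≤ m) ∨ (x = .a ∧ y.length + 1 ≤ 2 * m) ∨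
      (x = .g ∧ y.length + 1 = 2 * m + 1) ∨ (x = .h ∧ 2 * m + 2 ≤ y.length + 1) := by
  have aux : ∀ (i : ℕ) (z : Lt) (w : List Lt), 1 ≤ i → x :: y = List.replicate i z ++ w →
      x = z ∧ y.length + 1 = i + w.length := by
    intro i z w hi he
    obtain ⟨i, rfl⟩ := Nat.exists_eq_add_of_le' hi
    rw [List.replicate_succ, List.cons_append, List.cons.injEq] at he
    refine ⟨he.1, ?_⟩
    rw [he.2]
    simp
    omega
  rcases suf_rep _ _ _ _ h with h | ⟨i, h1, h2, h3⟩
  · rw [List.suffix_cons_iff] at h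
    rcases h with h | h
    · rw [List.cons.injEq] at h
      refine Or.inr (Or.inr (Or.inl ⟨h.1, ?_⟩))
      rw [h.2]
      simp
      omega
    · rcases suf_rep _ _ _ _ h with h | ⟨i, h1, h2, h3⟩
      · rcases suf_rep _ _ _ _ h with h | ⟨i, h1, h2, h3⟩
        · simp at h
        · obtain ⟨hx, hl⟩ := aux i _ _ h1 h3
          simp at hl
          exact Or.inl ⟨hx, by omega⟩
      · obtain ⟨hx, hl⟩ := aux i _ _ h1 h3
        simp at hl
        exact Or.inr (Or.inl ⟨hx, by omega⟩)
  · obtain ⟨hx, hl⟩ := aux i _ _ h1 h3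
    simp at hl
    exact Or.inr (Or.inr (Or.inr ⟨hx, by omega⟩))

/-! ### the lower bound -/

/-- the number of `B` before the first `D` -/
def kB : List Bool → ℕ
  | [] => 0
  | true :: _ => 0
  | false :: γ => kB γ + 1

/-- the length of the rest, from the first `D` on -/
def rl : List Bool → ℕ
  | [] => 0
  | true :: γ => γ.length + 1
  | false :: γ => rl γ

theorem kB_rl (γ : List Bool) : γ.length = kB γ + rl γ := by
  induction γ with
  | nil => rfl
  | cons b γ ih =>
    cases b
    · simp [kB, rl, ih]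
      omega
    · simp [kB, rl]

theorem inv1 (m : ℕ) : ∀ (γ : List Bool) (u : List Lt), u ∈ ext (Sem G0) (wd γ) {[]} →
    u <:+ wm m → u.length ≤ 2 * m + 1 → u.length ≤ m + kB γ
  | [], u, h, _, _ => by
    have : u = [] := h
    rw [this]
    simp
  | true :: γ, u, h, hs, hl => by
    rcases fD _ u h with ⟨y, rfl⟩ | ⟨y, _, rfl, _⟩
    · rcases letter m _ y hs with h1 | h1 | h1 | h1
      · simp
        omega
      · exact absurd h1.1 (by simp)
      · exact absurd h1.1 (by simp)
      · exact absurd h1.1 (by simp)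
    · rcases letter m _ y hs with h1 | h1 | h1 | h1
      · exact absurd h1.1 (by simp)
      · exact absurd h1.1 (by simp)
      · exact absurd h1.1 (by simp)
      · simp at hl
        omega
  | false :: γ, u, h, hs, hl => by
    rcases fB _ u h with h1 | ⟨y, hy, x, _, rfl⟩
    · have := inv1 m γ u h1 hs hl
      simp [kB]
      omega
    · have := inv1 m γ y hy ((List.suffix_cons x y).trans hs) (by simp at hl; omega)
      simp [kB]
      omega

theorem inv2 (m : ℕ) : ∀ (γ : List Bool) (u : List Lt), u ∈ ext (Sem G0) (wd γ) {[]} →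
    u <:+ wm m → ∀ i : ℕ, u.length = 2 * m + 1 + i → i * (m + 2) ≤ rl γ
  | [], u, h, _, i, hi => by
    have : u = [] := h
    rw [this] at hi
    simp at hi
    omega
  | true :: γ, u, h, hs, i, hi => by
    rcases fD _ u h with ⟨y, rfl⟩ | ⟨y, hy, rfl, z, hz, hzs⟩
    · rcases letter m _ y hs with h1 | h1 | h1 | h1
      · simp at hi
        omega
      · exact absurd h1.1 (by simp)
      · exact absurd h1.1 (by simp)
      · exact absurd h1.1 (by simp)
    · rcases letter m _ y hs with h1 | h1 | h1 | h1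
      · exact absurd h1.1 (by simp)
      · exact absurd h1.1 (by simp)
      · exact absurd h1.1 (by simp)
      · obtain ⟨_, h1⟩ := h1
        rw [List.length_cons] at hi
        have hi1 : 1 ≤ i := by omega
        obtain ⟨j, rfl⟩ := Nat.exists_eq_add_of_le' hi1
        have h2 := inv2 m γ y hy ((List.suffix_cons _ y).trans hs) j (by omega)
        have hz' : (Lt.g :: z) <:+ wm m := hzs.trans hs
        have hzl : z.length + 1 = 2 * m + 1 := by
          rcases letter m _ z hz' with h3 | h3 | h3 | h3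
          · exact absurd h3.1 (by simp)
          · exact absurd h3.1 (by simp)
          · exact h3.2
          · exact absurd h3.1 (by simp)
        have h3 := inv1 m γ _ hz hz' (by rw [List.length_cons]; omega)
        rw [List.length_cons] at h3
        have h4 := kB_rl γ
        simp only [rl]
        have e : (j + 1) * (m + 2) = j * (m + 2) + (m + 2) := by ring
        omega
  | false :: γ, u, h, hs, i, hi => by
    rcases Nat.eq_zero_or_pos i with rfl | hpos
    · simp
    rcases fB _ u h with h1 | ⟨y, hy, x, hx, rfl⟩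
    · exact inv2 m γ u h1 hs i hi
    · rw [List.length_cons] at hi
      rcases letter m _ y hs with h1 | h1 | h1 | h1
      · omega
      · omega
      · omega
      · exact absurd h1.1 hx

theorem lower (m t : ℕ) (ht : t ≤ m * (m + 2)) : wm m ∉ Stage G0 t .A {[]} := by
  intro h
  obtain ⟨γ, hγ, hu⟩ := stageA t _ _ h
  have h1 := inv2 m γ _ hu (List.suffix_refl _) m (wm_length m)
  have h2 := kB_rl γ
  omega

/-! ### the words are generated -/

theorem sB0 (R : Set (List Lt)) (y : List Lt) (h : y ∈ R) : y ∈ Sem G0 .B R :=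
  (sem_ex G0 cf0 nB R y).2 ⟨[], by rw [memP]; simp [prods], h⟩

theorem sB1 (R : Set (List Lt)) (y : List Lt) (x : Lt) (hx : x ≠ .h) (h : y ∈ R) :
    x :: y ∈ Sem G0 .B R := by
  cases x with
  | l => exact (sem_ex G0 cf0 nB R _).2 ⟨[c .l], by rw [memP]; simp [prods], y, h, rfl⟩
  | a => exact (sem_ex G0 cf0 nB R _).2 ⟨[c .a], by rw [memP]; simp [prods], y, h, rfl⟩
  | g => exact (sem_ex G0 cf0 nB R _).2 ⟨[c .g], by rw [memP]; simp [prods], y, h, rfl⟩
  | h => exact absurd rfl hx

theorem sDl (R : Set (List Lt)) (y : List Lt) (h : y ∈ R) : .l :: y ∈ Sem G0 .D R :=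
  (sem_ex G0 cf0 nD R _).2 ⟨[c .l], by rw [memP]; simp [prods], y, h, rfl⟩

theorem sY (R : Set (List Lt)) (y : List Lt) (h : y ∈ R) : ∀ u : List Lt,
    (∀ x ∈ u, x = .l ∨ x = .a) → u ++ y ∈ Sem G0 .Y R
  | [], _ => (sem_ex G0 cf0 nY R _).2 ⟨[], by rw [memP]; simp [prods], h⟩
  | x :: u, hu => by
    have ih := sY R y h u (fun z hz => hu z (List.mem_cons_of_mem _ hz))
    rcases hu x List.mem_cons_self with rfl | rfl
    · exact (sem_ex G0 cf0 nY R _).2 ⟨[c .l, v .Y], by rw [memP]; simp [prods], _, ih, rfl⟩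
    · exact (sem_ex G0 cf0 nY R _).2 ⟨[c .a, v .Y], by rw [memP]; simp [prods], _, ih, rfl⟩

theorem sK (R : Set (List Lt)) (u y : List Lt) (hu : ∀ x ∈ u, x = .l ∨ x = .a) (hy : y ∈ R)
    (h : .g :: (u ++ y) ∈ R) : .g :: (u ++ y) ∈ Sem G0 .K R := by
  refine (sem_un G0 cf0 yK R _).2 ⟨⟨[], by rw [memP]; simp [prods]⟩, ?_⟩
  intro r hr
  rw [memP] at hr
  simp only [prods, List.mem_cons, List.not_mem_nil, or_false, Prod.mk.injEq, List.cons.injEq,
    Sum.inl.injEq, reduceCtorEq, and_true, false_and, false_or, true_and, or_false] at hr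
  rcases hr with rfl | rfl
  · exact h
  · exact ⟨_, sY R y hy u hu, rfl⟩

theorem sX (R : Set (List Lt)) (z : List Lt) (h : z ∈ Sem G0 .K R) : ∀ i : ℕ,
    List.replicate i .h ++ z ∈ Sem G0 .X R
  | 0 => (sem_ex G0 cf0 nX R _).2 ⟨[v .K], by rw [memP]; simp [prods], by
      rw [List.replicate_zero, List.nil_append]
      exact h⟩
  | i + 1 => (sem_ex G0 cf0 nX R _).2 ⟨[c .h, v .X], by rw [memP]; simp [prods], _, sX R z h i,
      by rw [List.replicate_succ, List.cons_append]⟩

theorem sDh (R : Set (List Lt)) (i : ℕ) (u y : List Lt) (hu : ∀ x ∈ u, x = .l ∨ x = .a)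
    (hy : y ∈ R) (h1 : .g :: (u ++ y) ∈ R) (h2 : List.replicate i .h ++ (.g :: (u ++ y)) ∈ R) :
    List.replicate (i + 1) .h ++ (.g :: (u ++ y)) ∈ Sem G0 .D R := by
  refine (sem_ex G0 cf0 nD R _).2 ⟨[v .H], by rw [memP]; simp [prods], ?_⟩
  refine (sem_un G0 cf0 yH R _).2 ⟨⟨[c .h], by rw [memP]; simp [prods]⟩, ?_⟩
  intro r hr
  rw [memP] at hr
  simp only [prods, List.mem_cons, List.not_mem_nil, or_false, Prod.mk.injEq, List.cons.injEq,
    Sum.inl.injEq, reduceCtorEq, and_true, false_and, false_or, true_and, or_false] at hr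
  rcases hr with rfl | rfl
  · exact ⟨_, h2, by rw [List.replicate_succ, List.cons_append]⟩
  · exact sX R _ (sK R u y hu hy h1) (i + 1)

theorem hB (k : ℕ) : ∀ (u y : List Lt) (R : Set (List Lt)), y ∈ R → u.length ≤ k →
    (∀ x ∈ u, x ≠ .h) → u ++ y ∈ ext (Sem G0) (wd (List.replicate k false)) R := by
  induction k with
  | zero =>
    intro u y R hy hu _
    have : u = [] := List.length_eq_zero_iff.1 (by omega)
    rw [this]
    exact hy
  | succ k ih =>
    intro u y R hy hu hx
    have e : wd (List.replicate (k + 1) false) = v .B :: wd (List.replicate k false) := rfl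
    rw [e]
    cases u with
    | nil => exact sB0 _ _ (ih [] y R hy (by simp) (by simp))
    | cons x u =>
      refine sB1 _ (u ++ y) x (hx x List.mem_cons_self) (ih u y R hy ?_ ?_)
      · simp at hu
        omega
      · exact fun z hz => hx z (List.mem_cons_of_mem _ hz)

/-- the suffix `g a^m l^m` -/
def gm (m : ℕ) : List Lt := .g :: (List.replicate m .a ++ (List.replicate m .l ++ []))

theorem gm_split (m j : ℕ) (hj : j ≤ m) :
    gm m = .g :: ((List.replicate m .a ++ List.replicate (m - j) .l) ++ List.replicate j .l) := by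
  unfold gm
  have e : List.replicate m Lt.l = List.replicate (m - j) .l ++ List.replicate j .l := by
    rw [← List.replicate_add]
    congr 1
    omega
  rw [List.append_nil, List.append_assoc, ← e]

theorem build (m : ℕ) : ∀ j : ℕ, j ≤ m → ∃ γ : List Bool,
    (∀ p, j ≤ p → p ≤ m → List.replicate p Lt.l ∈ ext (Sem G0) (wd γ) {[]}) ∧
    ∀ i, i ≤ j → List.replicate i Lt.h ++ gm m ∈ ext (Sem G0) (wd γ) {[]}
  | 0, _ => by
    refine ⟨List.replicate (2 * m + 1) false, fun p _ hp => ?_, fun i hi => ?_⟩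
    · have := hB (2 * m + 1) (List.replicate p Lt.l) [] {[]} rfl (by simp; omega) (by
        intro x hx
        rw [List.eq_of_mem_replicate hx]
        simp)
      simpa using this
    · have hi0 : i = 0 := by omega
      subst hi0
      have := hB (2 * m + 1) (gm m) [] {[]} rfl (by simp [gm]; omega) (by
        intro x hx
        simp only [gm, List.append_nil, List.mem_cons, List.mem_append] at hx
        rcases hx with rfl | hx | hx
        · simp
        · rw [List.eq_of_mem_replicate hx]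
          simp
        · rw [List.eq_of_mem_replicate hx]
          simp)
      simpa using this
  | j + 1, hj => by
    obtain ⟨γ, h1, h2⟩ := build m j (by omega)
    refine ⟨List.replicate (m + 1) false ++ (true :: γ), ?_, ?_⟩
    all_goals
      have e : wd (List.replicate (m + 1) false ++ (true :: γ)) =
          wd (List.replicate (m + 1) false) ++ (v .D :: wd γ) := by simp [wd, vr]
    · intro p hp hpm
      rw [e, ext_append]
      have hy : List.replicate p Lt.l ∈ ext (Sem G0) (v .D :: wd γ) {[]} := by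
        obtain ⟨p, rfl⟩ := Nat.exists_eq_add_of_le' (show 1 ≤ p by omega)
        rw [List.replicate_succ]
        exact sDl _ _ (h1 p (by omega) (by omega))
      exact hB (m + 1) [] _ _ hy (by simp) (by simp)
    · intro i hi
      rw [e, ext_append]
      rcases Nat.eq_zero_or_pos i with rfl | hpos
      · -- the word `g a^m l^m`
        have hy : List.replicate m Lt.l ∈ ext (Sem G0) (v .D :: wd γ) {[]} := by
          obtain ⟨m', rfl⟩ := Nat.exists_eq_add_of_le' (show 1 ≤ m by omega)
          rw [List.replicate_succ]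
          exact sDl _ _ (h1 m' (by omega) (by omega))
        have := hB (m + 1) (.g :: List.replicate m .a) _ _ hy (by simp) (by
          intro x hx
          rw [List.mem_cons] at hx
          rcases hx with rfl | hx
          · simp
          · rw [List.eq_of_mem_replicate hx]
            simp)
        simpa [gm] using this
      · obtain ⟨i, rfl⟩ := Nat.exists_eq_add_of_le' (show 1 ≤ i by omega)
        have hg := h2 0 (Nat.zero_le _)
        have hi' := h2 i (by omega)
        rw [List.replicate_zero, List.nil_append] at hg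
        rw [gm_split m j (by omega)] at hg hi' ⊢
        refine hB (m + 1) [] _ _ ?_ (by simp) (by simp)
        refine sDh _ i _ _ ?_ (h1 j le_rfl (by omega)) hg hi'
        intro x hx
        rw [List.mem_append] at hx
        rcases hx with hx | hx
        · exact Or.inr (List.eq_of_mem_replicate hx)
        · exact Or.inl (List.eq_of_mem_replicate hx)

theorem toA (γ : List Bool) : ∀ (R : Set (List Lt)) (u : List Lt),
    u ∈ ext (Sem G0) (wd γ) R → u ∈ Sem G0 .A R := by
  induction γ using List.reverseRecOn with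
  | nil =>
    intro R u h
    exact (sem_ex G0 cf0 nA R u).2 ⟨[], by rw [memP]; simp [prods], h⟩
  | append_singleton γ b ih =>
    intro R u h
    have e : wd (γ ++ [b]) = wd γ ++ [v (vr b)] := by simp [wd]
    rw [e, ext_append] at h
    have h1 := ih _ u h
    cases b with
    | true => exact (sem_ex G0 cf0 nA R u).2 ⟨[v .A, v .D], by rw [memP]; simp [prods], h1⟩
    | false => exact (sem_ex G0 cf0 nA R u).2 ⟨[v .A, v .B], by rw [memP]; simp [prods], h1⟩

theorem wm_lang (m : ℕ) : wm m ∈ Lang G0 := by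
  show Pool.Agent.H43.AG.Tree G0 (wm m) [Sum.inl Vr.A]
  rw [tree_iff_pt, pt_iff_ext G0 cf0]
  obtain ⟨γ, _, h⟩ := build m m le_rfl
  exact toA γ {[]} _ (h m le_rfl)

theorem optimal : ∃ (V T : Type) (_ : Fintype V) (_ : Finite T) (G : Grammar V T),
    ContextFree G ∧ ∀ m : ℕ, ∃ w : List T, w.length = 3 * m + 1 ∧ w ∈ Lang G ∧
      ∀ t, t ≤ m * (m + 2) → w ∉ Stage G t G.S {[]} :=
  ⟨Vr, Lt, inferInstance, inferInstance, G0, cf0, fun m => ⟨wm m, by rw [wm_length]; omega, wm_lang m,
    fun t ht => lower m t ht⟩⟩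

end Pool.Agent.H71.AG
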