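import Pool.Agent.H43.AG.Fix

/-!
# Leftmost alternating context-free grammars: the least fixed point is reached after polynomially
many rounds
-/

set_option autoImplicit false

namespace Pool.Agent.H71.AG

open Pool.Agent.H43.AG

variable {V T : Type}

/-- round `t` of the iteration of the equations of the variables, starting with the empty maps -/
def Stage (G : Grammar V T) : ℕ → V → Set (List T) → Set (List T)
  | 0 => fun _ _ => ∅
  | t + 1 => fun A R => {w | ∃ S ∈ Ch G A, ∀ r ∈ S, w ∈ ext (Stage G t) r R}

theorem ext_le (H H' : V → Set (List T) → Set (List T)) (v : List T)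
    (hH : ∀ u, u <:+ v → ∀ (A : V) (R R' : Set (List T)),
      (∀ x, x <:+ u → x ∈ R → x ∈ R') → u ∈ H A R → u ∈ H' A R') (f : Form V T)
    (R R' : Set (List T)) : ∀ u, u <:+ v → (∀ x, x <:+ u → x ∈ R → x ∈ R') →
      u ∈ ext H f R → u ∈ ext H' f R' := by
  induction f with
  | nil => exact fun u _ hR h => hR u (List.suffix_refl u) h
  | cons c f ih =>
    intro u hu hR h
    rcases c with A | a
    · exact hH u hu A _ _ (fun x hx hxR => ih x (hx.trans hu)
        (fun y hy => hR y (hy.trans hx)) hxR) h
    · obtain ⟨u', hu', rfl⟩ := h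
      have hs : u' <:+ a :: u' := List.suffix_cons a u'
      exact ⟨u', ih u' (hs.trans hu) (fun y hy => hR y (hy.trans hs)) hu', rfl⟩

theorem stage_le (G : Grammar V T) : ∀ (t s : ℕ), t ≤ s → ∀ (u : List T) (A : V)
    (R R' : Set (List T)), (∀ x, x <:+ u → x ∈ R → x ∈ R') → u ∈ Stage G t A R →
      u ∈ Stage G s A R'
  | 0, _, _, _, _, _, _, _, h => by simp [Stage] at h
  | t + 1, 0, h, _, _, _, _, _, _ => by omega
  | t + 1, s + 1, hts, u, A, R, R', hR, h => by
    obtain ⟨S, hS, hr⟩ := h
    refine ⟨S, hS, fun r hrS => ?_⟩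
    exact ext_le (Stage G t) (Stage G s) u
      (fun x _ B Q Q' hQ hx => stage_le G t s (by omega) x B Q Q' hQ hx) r R R' u
      (List.suffix_refl u) hR (hr r hrS)

theorem sem_loc (G : Grammar V T) (u : List T) (A : V) (R R' : Set (List T))
    (hR : ∀ x, x <:+ u → x ∈ R → x ∈ R') (h : u ∈ Sem G A R) : u ∈ Sem G A R' :=
  pt_local G R R' u _ hR h

theorem stage_sem (G : Grammar V T) (hG : ContextFree G) : ∀ (t : ℕ) (u : List T) (A : V)
    (R : Set (List T)), u ∈ Stage G t A R → u ∈ Sem G A R
  | 0, _, _, _, h => by simp [Stage] at h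
  | t + 1, u, A, R, h => by
    obtain ⟨S, hS, hr⟩ := h
    refine (sem_eq G hG A R u).2 ⟨S, hS, fun r hrS => ?_⟩
    exact ext_le (Stage G t) (Sem G) u
      (fun x _ B Q Q' hQ hx => sem_loc G x B Q Q' hQ (stage_sem G hG t x B Q hx)) r R R u
      (List.suffix_refl u) (fun _ _ h => h) (hr r hrS)

/-! ### contexts and their rank -/

open Classical in
/-- the lengths of the proper suffixes of `v` in `R` -/
noncomputable def ctx (v : List T) (R : Set (List T)) : Finset ℕ :=
  (Finset.range v.length).filter (fun l => v.drop (v.length - l) ∈ R)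

open Classical in
noncomputable def Dn (m : ℕ) (C : Finset ℕ) : Finset ℕ :=
  (Finset.range m).filter (fun l => ∃ c ∈ C, c ≤ l)

/-- the potential of the suffix `v` with the context `R`, for words of length at most `n` -/
noncomputable def pot (n : ℕ) (v : List T) (R : Set (List T)) : ℕ :=
  (n + 2) * (Dn (n + 1) (ctx v R)).card + (v.length - (ctx v R).card) + v.length

theorem suf_antisymm {u v : List T} (h : u <:+ v) (h' : v <:+ u) : u = v :=
  h.eq_of_length (le_antisymm h.length_le h'.length_le)

theorem mem_ctx (v : List T) (R : Set (List T)) (u : List T) (hu : u <:+ v) (hne : u ≠ v) :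
    u.length ∈ ctx v R ↔ u ∈ R := by
  have h1 : v.drop (v.length - u.length) = u := (List.suffix_iff_eq_drop.1 hu).symm
  have h2 : u.length < v.length := by
    rcases Nat.lt_or_ge u.length v.length with h | h
    · exact h
    · exact absurd (hu.eq_of_length (le_antisymm hu.length_le h)) hne
  classical
  unfold ctx
  rw [Finset.mem_filter, Finset.mem_range, h1]
  exact ⟨fun h => h.2, fun h => ⟨h2, h⟩⟩

theorem of_ctx (v : List T) (R : Set (List T)) (l : ℕ) (hl : l ∈ ctx v R) :
    ∃ u, u <:+ v ∧ u ≠ v ∧ u.length = l ∧ u ∈ R := by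
  classical
  unfold ctx at hl
  rw [Finset.mem_filter, Finset.mem_range] at hl
  have hlen : (v.drop (v.length - l)).length = l := by
    rw [List.length_drop]
    omega
  refine ⟨v.drop (v.length - l), List.drop_suffix _ _, ?_, hlen, hl.2⟩
  intro h
  rw [h] at hlen
  omega

theorem ctx_lt (v : List T) (R : Set (List T)) (l : ℕ) (hl : l ∈ ctx v R) : l < v.length := by
  classical
  unfold ctx at hl
  rw [Finset.mem_filter, Finset.mem_range] at hl
  exact hl.1

theorem ctx_card (v : List T) (R : Set (List T)) : (ctx v R).card ≤ v.length := by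
  classical
  unfold ctx
  refine (Finset.card_filter_le _ _).trans ?_
  rw [Finset.card_range]

theorem dn_card (m : ℕ) (C : Finset ℕ) : (Dn m C).card ≤ m := by
  classical
  unfold Dn
  refine (Finset.card_filter_le _ _).trans ?_
  rw [Finset.card_range]

theorem mem_dn (m : ℕ) (C : Finset ℕ) (l : ℕ) : l ∈ Dn m C ↔ l < m ∧ ∃ c ∈ C, c ≤ l := by
  classical
  unfold Dn
  rw [Finset.mem_filter, Finset.mem_range]

theorem dn_mono (m : ℕ) (C C' : Finset ℕ) (hlow : ∀ c' ∈ C', ∃ c ∈ C, c ≤ c') :
    Dn m C' ⊆ Dn m C := by
  intro l hl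
  rw [mem_dn] at hl ⊢
  obtain ⟨h1, c', hc', h2⟩ := hl
  obtain ⟨c, hc, h3⟩ := hlow c' hc'
  exact ⟨h1, c, hc, h3.trans h2⟩

theorem dn_strict (m : ℕ) (C C' : Finset ℕ) (hm : ∀ c ∈ C, c < m)
    (hlow : ∀ c' ∈ C', ∃ c ∈ C, c < c') (hC : C.Nonempty) :
    (Dn m C').card < (Dn m C).card := by
  refine Finset.card_lt_card ((Finset.ssubset_iff_of_subset
    (dn_mono m C C' fun c' hc' => ?_)).2 ⟨C.min' hC, ?_, ?_⟩)
  · obtain ⟨c, hc, h3⟩ := hlow c' hc'
    exact ⟨c, hc, h3.le⟩
  · rw [mem_dn]
    exact ⟨hm _ (C.min'_mem hC), _, C.min'_mem hC, le_refl _⟩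
  · rw [mem_dn]
    rintro ⟨_, c', hc', h2⟩
    obtain ⟨c, hc, h3⟩ := hlow c' hc'
    have := C.min'_le c hc
    omega

/-- the numbers behind the potential -/
theorem pot_arith (n a b x m c c' : ℕ) (hx : x ≤ m) (hm : m ≤ n) (hc : c ≤ m) (hc' : c' ≤ x)
    (hab : a < b) : (n + 2) * a + (x - c') + x < (n + 2) * b + (m - c) + m := by
  have h1 : (n + 2) * (a + 1) ≤ (n + 2) * b := Nat.mul_le_mul_left _ hab
  have h2 : (n + 2) * (a + 1) = (n + 2) * a + (n + 2) := by ring
  omega

theorem step_nonempty (G : Grammar V T) (f : Form V T) (C : Set (Form V T)) (h : Step G f C) :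
    C.Nonempty := by
  cases h with
  | ex x l r d _ hr => exact ⟨_, rfl⟩
  | all x l d _ hr =>
    obtain ⟨r, hr⟩ := hr
    exact ⟨word x ++ r ++ d, r, hr, rfl⟩

theorem pt_suffix (G : Grammar V T) (R : Set (List T)) (w : List T) (f : Form V T)
    (h : PT G R w f) : ∃ x ∈ R, x <:+ w := by
  induction h with
  | leaf u v hw hv => exact ⟨v, hv, ⟨u, hw.symm⟩⟩
  | node f C hC _ ih =>
    obtain ⟨g, hg⟩ := step_nonempty G f C hC
    exact ih g hg

theorem pt_dich (G : Grammar V T) (R : Set (List T)) (w : List T) (f : Form V T)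
    (h : PT G R w f) (hno : ¬ ∃ x ∈ R, x <:+ w ∧ x ≠ w) : Tree G [] f := by
  induction h with
  | leaf u v hw hv =>
    have hvw : v = w := by
      by_contra hne
      exact hno ⟨v, hv, ⟨u, hw.symm⟩, hne⟩
    have hu : u = [] := by
      rw [hvw] at hw
      simpa using hw
    rw [hu]
    exact Pool.Agent.H43.AG.Tree.leaf
  | node f C hC _ ih => exact Pool.Agent.H43.AG.Tree.node f C hC ih

theorem pt_null (G : Grammar V T) (R : Set (List T)) (w : List T) (f : Form V T)
    (h : Tree G [] f) (hw : w ∈ R) : PT G R w f := by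
  induction h with
  | leaf => exact PT.leaf [] w rfl hw
  | node f C hC _ ih => exact PT.node f C hC ih

theorem rank_lemma (G : Grammar V T) (hG : ContextFree G) (n : ℕ) (v x : List T)
    (hv : v.length ≤ n) (hx : x <:+ v) (g : Form V T) (R : Set (List T)) :
    (x = v ∧ ctx x (ext (Sem G) g R) = ctx v R) ∨
      pot n x (ext (Sem G) g R) < pot n v R := by
  have hxl : x.length ≤ v.length := hx.length_le
  have hcx := ctx_card x (ext (Sem G) g R)
  have hcv := ctx_card v R
  have hlow : ∀ c' ∈ ctx x (ext (Sem G) g R), ∃ c ∈ ctx v R, c ≤ c' := by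
    intro l hl
    obtain ⟨u, hu, hne, rfl, huR⟩ := of_ctx x _ l hl
    obtain ⟨y, hy, hyu⟩ := pt_suffix G R u g ((pt_iff_ext G hG g R u).2 huR)
    have hyx : y ≠ v := by
      rintro rfl
      have h1 := hyu.length_le
      have h2 := hu.length_le
      exact hne (hu.eq_of_length (by omega))
    exact ⟨y.length, (mem_ctx v R y (hyu.trans (hu.trans hx)) hyx).2 hy, hyu.length_le⟩
  by_cases hnull : Tree G [] g
  · have hD := Finset.card_le_card (dn_mono (n + 1) _ _ hlow)
    rcases Nat.lt_or_ge (Dn (n + 1) (ctx x (ext (Sem G) g R))).card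
      (Dn (n + 1) (ctx v R)).card with hlt | hge
    · exact Or.inr (pot_arith n _ _ _ _ _ _ hxl hv hcv hcx hlt)
    · have hDe : (Dn (n + 1) (ctx x (ext (Sem G) g R))).card = (Dn (n + 1) (ctx v R)).card :=
        le_antisymm hD hge
      -- the complements
      have hcomp : Finset.range x.length \ ctx x (ext (Sem G) g R) ⊆
          Finset.range v.length \ ctx v R := by
        intro l hl
        rw [Finset.mem_sdiff, Finset.mem_range] at hl ⊢
        refine ⟨by omega, fun hlv => hl.2 ?_⟩
        obtain ⟨u, hu, hne, rfl, huR⟩ := of_ctx v R l hlv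
        have hux : u <:+ x := by
          exact List.suffix_of_suffix_length_le hu hx hl.1.le
        have hux' : u ≠ x := by
          rintro rfl
          exact absurd hl.1 (lt_irrefl _)
        rw [mem_ctx x _ u hux hux']
        exact (pt_iff_ext G hG g R u).1 (pt_null G R u g hnull huR)
      have hsx : ctx x (ext (Sem G) g R) ⊆ Finset.range x.length := fun l hl =>
        Finset.mem_range.2 (ctx_lt x _ l hl)
      have hsv : ctx v R ⊆ Finset.range v.length := fun l hl =>
        Finset.mem_range.2 (ctx_lt v _ l hl)
      have hc1 := Finset.card_le_card hcomp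
      rw [Finset.card_sdiff_of_subset hsx, Finset.card_sdiff_of_subset hsv, Finset.card_range,
        Finset.card_range] at hc1
      rcases Nat.lt_or_ge x.length v.length with hlt | hge'
      · refine Or.inr ?_
        unfold pot
        rw [hDe]
        omega
      · have hxv : x = v := hx.eq_of_length (le_antisymm hxl hge')
        subst hxv
        by_cases heq : ctx x (ext (Sem G) g R) = ctx x R
        · exact Or.inl ⟨rfl, heq⟩
        · refine Or.inr ?_
          have hsub : ctx x R ⊆ ctx x (ext (Sem G) g R) := by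
            intro l hl
            by_contra hl'
            have : l ∈ Finset.range x.length \ ctx x (ext (Sem G) g R) := by
              rw [Finset.mem_sdiff]
              exact ⟨hsv hl, hl'⟩
            have := hcomp this
            rw [Finset.mem_sdiff] at this
            exact this.2 hl
          have hlt := Finset.card_lt_card (Finset.ssubset_iff_subset_ne.2 ⟨hsub, fun h => heq h.symm⟩)
          unfold pot
          rw [hDe]
          omega
  · have hlow' : ∀ c' ∈ ctx x (ext (Sem G) g R), ∃ c ∈ ctx v R, c < c' := by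
      intro l hl
      obtain ⟨u, hu, hne, rfl, huR⟩ := of_ctx x _ l hl
      by_cases hex : ∃ y ∈ R, y <:+ u ∧ y ≠ u
      · obtain ⟨y, hy, hyu, hyne⟩ := hex
        have hlt : y.length < u.length := by
          rcases Nat.lt_or_ge y.length u.length with h | h
          · exact h
          · exact absurd (hyu.eq_of_length (le_antisymm hyu.length_le h)) hyne
        have hyv : y ≠ v := by
          rintro rfl
          have h2 := hu.length_le
          omega
        exact ⟨y.length, (mem_ctx v R y (hyu.trans (hu.trans hx)) hyv).2 hy, hlt⟩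
      · exact absurd (pt_dich G R u g ((pt_iff_ext G hG g R u).2 huR) hex) hnull
    by_cases hC : (ctx v R).Nonempty
    · refine Or.inr (pot_arith n _ _ _ _ _ _ hxl hv hcv hcx ?_)
      exact dn_strict (n + 1) _ _ (fun c hc => by have := ctx_lt v R c hc; omega) hlow' hC
    · rw [Finset.not_nonempty_iff_eq_empty] at hC
      have hC' : ctx x (ext (Sem G) g R) = ∅ := by
        rw [Finset.eq_empty_iff_forall_notMem]
        intro c' hc'
        obtain ⟨c, hc, _⟩ := hlow' c' hc'
        rw [hC] at hc
        simp at hc
      rcases Nat.lt_or_ge x.length v.length with hlt | hge'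
      · refine Or.inr ?_
        unfold pot
        rw [hC, hC', Finset.card_empty]
        omega
      · exact Or.inl ⟨hx.eq_of_length (le_antisymm hxl hge'), by rw [hC, hC']⟩

/-! ### the rounds -/

/-- an increasing sequence of sets in a finite type stops within `N` steps once -/
theorem exists_stop {B : Type} [Fintype B] (X : ℕ → Set B) (hX : ∀ t, X t ⊆ X (t + 1)) (t₁ : ℕ) :
    ∃ t, t₁ ≤ t ∧ t ≤ t₁ + Fintype.card B ∧ X (t + 1) ⊆ X t := by
  classical
  by_contra hcon
  push Not at hcon
  have key : ∀ i, i ≤ Fintype.card B + 1 → i ≤ (Finset.univ.filter (fun b => b ∈ X (t₁ + i))).card := by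
    intro i
    induction i with
    | zero => intro _; exact Nat.zero_le _
    | succ i ih =>
      intro hi
      have h1 := ih (by omega)
      have h2 := hcon (t₁ + i) (by omega) (by omega)
      have h3 : (Finset.univ.filter (fun b => b ∈ X (t₁ + i))).card <
          (Finset.univ.filter (fun b => b ∈ X (t₁ + (i + 1)))).card := by
        refine Finset.card_lt_card ?_
        rw [Finset.ssubset_iff_subset_ne]
        constructor
        · intro b hb
          rw [Finset.mem_filter] at hb ⊢
          exact ⟨hb.1, hX _ hb.2⟩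
        · intro he
          apply h2
          intro b hb
          have : b ∈ Finset.univ.filter (fun b => b ∈ X (t₁ + (i + 1))) := by
            rw [Finset.mem_filter]
            exact ⟨Finset.mem_univ _, hb⟩
          rw [← he, Finset.mem_filter] at this
          exact this.2
      omega
  have h1 := key (Fintype.card B + 1) le_rfl
  have h2 : (Finset.univ.filter (fun b => b ∈ X (t₁ + (Fintype.card B + 1)))).card ≤
      Fintype.card B := Finset.card_le_univ _
  omega

theorem level (G : Grammar V T) (hG : ContextFree G) [Fintype V] (n : ℕ) :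
    ∀ (k : ℕ) (v : List T), v.length ≤ n → ∀ (R : Set (List T)), pot n v R < k →
    ∀ A : V, v ∈ Sem G A R → v ∈ Stage G (2 * Fintype.card V * k) A R := by
  intro k
  induction k with
  | zero => intro v _ R h; omega
  | succ k ihk =>
    intro v hv R hR A hA
    set N := 2 * Fintype.card V with hN
    set C := ctx v R with hC
    let Rb : Bool → Set (List T) := fun b => {x | (x ≠ v ∧ x.length ∈ C) ∨ (x = v ∧ b = true)}
    let X : ℕ → Set (V × Bool) := fun t => {p | v ∈ Stage G t p.1 (Rb p.2)}
    obtain ⟨t, ht, ht', hstop⟩ := exists_stop X (fun t p hp => stage_le G t (t + 1) (by omega) v _ _ _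
      (fun _ _ h => h) hp) (N * k)
    have hcard : Fintype.card (V × Bool) = N := by
      rw [Fintype.card_prod, Fintype.card_bool, hN]
      ring
    rw [hcard] at ht'
    have stable : ∀ (A : V) (R' : Set (List T)), ctx v R' = C → v ∈ Stage G (t + 1) A R' →
        v ∈ Stage G t A R' := by
      intro A R' hR' h
      classical
      have e1 : ∀ x, x <:+ v → (x ∈ R' ↔ x ∈ Rb (decide (v ∈ R'))) := by
        intro x hx
        by_cases hxv : x = v
        · subst hxv
          simp [Rb]
        · rw [← mem_ctx v R' x hx hxv, hR']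
          simp [Rb, hxv]
      have h2 : (A, decide (v ∈ R')) ∈ X (t + 1) :=
        stage_le G (t + 1) (t + 1) le_rfl v A _ _ (fun x hx hx' => (e1 x hx).1 hx') h
      exact stage_le G t t le_rfl v A _ _ (fun x hx hx' => (e1 x hx).2 hx') (hstop h2)
    let H : V → Set (List T) → Set (List T) := fun A R' =>
      {u | u ∈ Sem G A R' ∧ (u = v → ctx v R' = C → v ∈ Stage G t A R')}
    have hHsem : ∀ (f : Form V T) (R' : Set (List T)) (u : List T), u ∈ ext H f R' →
        u ∈ ext (Sem G) f R' := by
      intro f R' u hu
      exact ext_le H (Sem G) u (fun x _ B Q Q' hQ hx => sem_loc G x B Q Q' hQ hx.1) f R' R' u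
        (List.suffix_refl u) (fun _ _ h => h) hu
    have hsemH : ∀ (f : Form V T) (R' : Set (List T)) (u : List T), u <:+ v → u ≠ v →
        u ∈ ext (Sem G) f R' → u ∈ ext H f R' := by
      intro f R' u hu hne h
      refine ext_le (Sem G) H u ?_ f R' R' u (List.suffix_refl u) (fun _ _ h => h) h
      intro x hx B Q Q' hQ hxs
      refine ⟨sem_loc G x B Q Q' hQ hxs, fun hxv => ?_⟩
      subst hxv
      exact absurd (suf_antisymm hu hx) hne
    have key : ∀ (R' : Set (List T)), ctx v R' = C → ∀ (f : Form V T) (x : List T), x <:+ v →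
        x ∈ ext H f R' → x ∈ ext (Stage G t) f R' := by
      intro R' hR' f
      induction f with
      | nil => exact fun x _ h => h
      | cons c f ih =>
        intro x hx h
        rcases c with B | a
        · have h' : x ∈ H B (ext H f R') := h
          have hQ : ∀ y, y <:+ x → y ∈ ext H f R' → y ∈ ext (Stage G t) f R' :=
            fun y hy hyQ => ih y (hy.trans hx) hyQ
          have hprop : ∀ u, u <:+ x → u ≠ x → u ≠ v := by
            rintro u hu hne rfl
            exact hne (suf_antisymm hu hx)
          have hc : ctx x (ext H f R') = ctx x (ext (Sem G) f R') := by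
            ext l
            constructor
            · intro hl
              obtain ⟨u, hu, hne, rfl, huR⟩ := of_ctx x _ l hl
              exact (mem_ctx x _ u hu hne).2 (hHsem f R' u huR)
            · intro hl
              obtain ⟨u, hu, hne, rfl, huR⟩ := of_ctx x _ l hl
              exact (mem_ctx x _ u hu hne).2 (hsemH f R' u (hu.trans hx) (hprop u hu hne) huR)
          have hst : x ∈ Stage G t B (ext H f R') := by
            rcases rank_lemma G hG n v x hv hx f R' with ⟨h1, h2⟩ | h1
            · subst h1
              exact h'.2 rfl (by rw [hc, h2, hR'])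
            · have hlt : pot n x (ext H f R') < k := by
                have e1 : pot n x (ext H f R') = pot n x (ext (Sem G) f R') := by
                  unfold pot
                  rw [hc]
                have e2 : pot n v R' = pot n v R := by
                  unfold pot
                  rw [hR', hC]
                omega
              have := ihk x (hx.length_le.trans hv) _ hlt B h'.1
              exact stage_le G _ t ht x B _ _ (fun _ _ h => h) this
          exact stage_le G t t le_rfl x B _ _ hQ hst
        · obtain ⟨u', hu', hvu⟩ := h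
          refine ⟨u', ?_, hvu⟩
          have hs : u' <:+ x := by
            rw [hvu]
            exact List.suffix_cons a u'
          exact ih u' (hs.trans hx) hu'
    have hcl : Closed G H := by
      intro B R' u hu
      obtain ⟨S, hS, hr⟩ := hu
      refine ⟨(sem_eq G hG B R' u).2 ⟨S, hS, fun r hrS => hHsem r R' u (hr r hrS)⟩, ?_⟩
      intro huv hR'
      subst huv
      exact stable B R' hR' ⟨S, hS, fun r hrS => key R' hR' r u (List.suffix_refl u) (hr r hrS)⟩
    have hfin : v ∈ ext H [Sum.inl A] R := sem_least G hG H hcl R v [Sum.inl A] hA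
    have h1 : v ∈ H A R := hfin
    have h2 := h1.2 rfl rfl
    refine stage_le G t _ ?_ v A R R (fun _ _ h => h) h2
    have : N * (k + 1) = N * k + N := by ring
    omega

theorem stage_exact (G : Grammar V T) (hG : ContextFree G) [Fintype V] (n : ℕ) (v : List T)
    (hv : v.length ≤ n) (A : V) (R : Set (List T)) (h : v ∈ Sem G A R) :
    v ∈ Stage G (2 * Fintype.card V * ((n + 1) * (n + 4))) A R := by
  refine level G hG n _ v hv R ?_ A h
  have h1 : (Dn (n + 1) (ctx v R)).card ≤ n + 1 := dn_card _ _
  have h2 : (n + 2) * (Dn (n + 1) (ctx v R)).card ≤ (n + 2) * (n + 1) :=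
    Nat.mul_le_mul_left _ h1
  have h3 : (n + 1) * (n + 4) = (n + 2) * (n + 1) + 2 * n + 2 := by ring
  unfold pot
  omega

theorem tree_iff_stage (G : Grammar V T) (hG : ContextFree G) [Fintype V] (f : Form V T)
    (w : List T) :
    Tree G w f ↔
      w ∈ ext (Stage G (2 * Fintype.card V * ((w.length + 1) * (w.length + 4)))) f {[]} := by
  rw [tree_iff_pt, pt_iff_ext G hG f {[]} w]
  constructor
  · intro h
    refine ext_le (Sem G) _ w ?_ f {[]} {[]} w (List.suffix_refl w) (fun _ _ h => h) h
    intro u hu A R R' hR hs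
    exact stage_le G _ _ le_rfl u A R R' hR (stage_exact G hG w.length u hu.length_le A R hs)
  · intro h
    refine ext_le _ (Sem G) w ?_ f {[]} {[]} w (List.suffix_refl w) (fun _ _ h => h) h
    intro u hu A R R' hR hs
    exact sem_loc G u A R R' hR (stage_sem G hG _ u A R hs)

theorem stage_stationary (G : Grammar V T) (hG : ContextFree G) [Fintype V] (w u : List T) (A : V)
    (R : Set (List T)) (t : ℕ) (hu : u <:+ w)
    (ht : 2 * Fintype.card V * ((w.length + 1) * (w.length + 4)) ≤ t) :
    u ∈ Stage G t A R ↔
      u ∈ Stage G (2 * Fintype.card V * ((w.length + 1) * (w.length + 4))) A R := by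
  constructor
  · intro h
    exact stage_exact G hG w.length u hu.length_le A R (stage_sem G hG t u A R h)
  · exact stage_le G _ _ ht u A R R (fun _ _ h => h)

end Pool.Agent.H71.AG
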